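import Pool.Agent.Y648.WT.Sep

/-!
# The weak Chebyshev greedy algorithm with weakness sequences

`IsRunSeq τ D f r F φ` (`Pool/Agent/Y648/WT/Seq.lean`): `r` is the sequence of the residuals of a
realization of the weak Chebyshev greedy algorithm for the dictionary `D` and the element `f`, in
which the weakness parameter of step `m + 1` is `τ m`, with the norming functionals `F m` and the
chosen elements `φ m`. `Conv τ X`: for all dictionaries and all elements of `X`, the residuals of
all realizations tend to `0` in norm. `Smooth`, `DualKK`, `IsDictionary`, `IsNorming`,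
`IsBestApprox`: `Pool/Agent/Helper983/WC/Basic.lean`.

* For every weakness sequence in `[0, 1]` which does not tend to zero the property holds in
  exactly the smooth Banach spaces whose dual norm has the sequential weak-star Kadec-Klee
  property.
* In every other Banach space there is one divergent realization which is admissible for all
  weakness sequences at the same time.
* There is a separable Banach space of the class above in which the property fails for every
  weakness sequence which tends to zero: so the first statement holds for no other sequence.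
-/

universe u

namespace Pool.Agent.Results.MP_dc5a1d_an.WeaknessSequences

open Filter Topology Pool.Agent.Helper983.WC Pool.Agent.Y648.WT

theorem result :
    (∀ (X : Type u) [NormedAddCommGroup X] [NormedSpace ℝ X] [CompleteSpace X] (τ : ℕ → ℝ),
      (∀ m, 0 ≤ τ m ∧ τ m ≤ 1) → ¬ Tendsto τ atTop (𝓝 0) →
        (Conv τ X ↔ Smooth X ∧ DualKK X)) ∧
    (∀ (X : Type u) [NormedAddCommGroup X] [NormedSpace ℝ X] [CompleteSpace X],
      ¬ (Smooth X ∧ DualKK X) →
        ∃ (D : Set X) (f : X) (r : ℕ → X) (F : ℕ → X →L[ℝ] ℝ) (φ : ℕ → X), IsDictionary D ∧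
          (∀ τ : ℕ → ℝ, (∀ m, 0 ≤ τ m ∧ τ m ≤ 1) → IsRunSeq τ D f r F φ) ∧
          ¬ Tendsto (fun m => ‖r m‖) atTop (𝓝 0)) ∧
    ∃ (X : Type) (_ : NormedAddCommGroup X) (_ : NormedSpace ℝ X),
      CompleteSpace X ∧ TopologicalSpace.SeparableSpace X ∧ Smooth X ∧ DualKK X ∧
        ∀ τ : ℕ → ℝ, (∀ m, 0 ≤ τ m ∧ τ m ≤ 1) → (Conv τ X ↔ ¬ Tendsto τ atTop (𝓝 0)) := by
  refine ⟨?_, ?_, ?_⟩
  · intro X _ _ _ τ h hτ
    exact conv_iff (fun m => (h m).1) (fun m => (h m).2) hτ
  · intro X _ _ _ h
    obtain ⟨D, f, r, F, φ, hD, hrun, hnot⟩ := fails_all h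
    exact ⟨D, f, r, F, φ, hD, fun τ hτ => hrun τ fun m => (hτ m).2, hnot⟩
  · exact ⟨X0, inferInstance, inferInstance, inferInstance, separable_X0, smooth_X0, dualKK_X0,
      fun τ hτ => conv_X0_iff (fun m => (hτ m).1) (fun m => (hτ m).2)⟩

end Pool.Agent.Results.MP_dc5a1d_an.WeaknessSequences
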